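import Pool.Agent.H47.ALLH.Stmts

/-!
# ALLH, GPR: choice of the prime `g`
-/

set_option autoImplicit false

namespace Pool.ALLH

open Finset

theorem gpr_thm : S_GPR := by
  intro K x y hy
  set n : ℕ := ⌈y⌉₊ with hn
  have hyn : y ≤ n := Nat.le_ceil y
  have hny : (n : ℝ) < y + 1 := Nat.ceil_lt_add_one (by linarith)
  have hn1 : 1 ≤ n := by
    have : (1 : ℝ) ≤ n := hy.trans hyn
    exact_mod_cast this
  obtain ⟨g1, hg1, h1, h1'⟩ := Nat.exists_prime_lt_and_le_two_mul n (by omega)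
  obtain ⟨g2, hg2, h2, h2'⟩ := Nat.exists_prime_lt_and_le_two_mul (2 * n) (by omega)
  have h1c : (n : ℝ) < g1 := by exact_mod_cast h1
  have h1c' : (g1 : ℝ) ≤ 2 * n := by exact_mod_cast h1'
  have h2c : 2 * (n : ℝ) < g2 := by exact_mod_cast h2
  have h2c' : (g2 : ℝ) ≤ 2 * (2 * n) := by exact_mod_cast h2'
  set f : ℕ → ℝ := fun t => (x t : ℝ) * Real.log t with hf
  have hf0 : ∀ t, 0 ≤ f t := fun t => mul_nonneg (Nat.cast_nonneg _) (Real.log_natCast_nonneg t)
  by_cases ha : (∑ t ∈ K, f t) / 2 ≤ ∑ t ∈ K.erase g1, f t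
  · exact ⟨g1, hg1, by linarith, by linarith, ha⟩
  · refine ⟨g2, hg2, by linarith, by linarith, ?_⟩
    by_contra hb
    push Not at ha hb
    have hS0 : 0 ≤ ∑ t ∈ K, f t := Finset.sum_nonneg fun t _ => hf0 t
    have m1 : g1 ∈ K := by
      by_contra h
      rw [Finset.erase_eq_of_notMem h] at ha
      linarith
    have m2 : g2 ∈ K := by
      by_contra h
      rw [Finset.erase_eq_of_notMem h] at hb
      change ∑ t ∈ K, f t < (∑ t ∈ K, f t) / 2 at hb
      linarith
    have e1 := Finset.sum_erase_add K f m1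
    have e2 := Finset.sum_erase_add K f m2
    change ∑ t ∈ K.erase g2, f t < (∑ t ∈ K, f t) / 2 at hb
    have hne : g2 ≠ g1 := by omega
    have m3 : g2 ∈ K.erase g1 := Finset.mem_erase.2 ⟨hne, m2⟩
    have h3 : f g2 ≤ ∑ t ∈ K.erase g1, f t :=
      Finset.single_le_sum (fun t _ => hf0 t) m3
    linarith

end Pool.ALLH
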