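import Pool.Agent.H47.ALLH.Stmts

/-!
# ALLH, NUM: choice of the parameters
-/

set_option autoImplicit false

namespace Pool.ALLH

open Finset Filter

theorem num_thm : S_NUM := by
  intro δ hδ hδ1
  have hc1 : (0 : ℝ) < δ / 51200 := by positivity
  have hev := (Real.isLittleO_log_id_atTop.bound hc1).and
    (eventually_ge_atTop (2000 / δ))
  obtain ⟨L1, hL1⟩ := eventually_atTop.1 hev
  refine ⟨max L1 (2000 / δ), ?_, ?_⟩
  · refine le_trans ?_ (le_max_right _ _)
    rw [le_div_iff₀ hδ]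
    linarith
  intro L h0 g hL hh0 hg hg'
  obtain ⟨hlog, hLδ⟩ := hL1 L ((le_max_left _ _).trans hL)
  have hLδ' : 2000 ≤ δ * L := by
    rw [div_le_iff₀ hδ] at hLδ
    linarith
  have hL0 : 0 < L := by
    by_contra h
    push Not at h
    have := mul_nonpos_of_nonneg_of_nonpos hδ.le h
    linarith
  have hL2000 : 2000 ≤ L := by
    have := mul_le_mul_of_nonneg_right hδ1 hL0.le
    linarith
  have hlog0 : 0 ≤ Real.log L := Real.log_nonneg (by linarith)
  have hlog1 : Real.log L ≤ δ / 51200 * L := by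
    simpa [Real.norm_eq_abs, abs_of_nonneg hlog0, abs_of_pos hL0] using hlog
  -- logs of g
  have hL7 : 0 < L ^ 7 := by positivity
  have hL7' : 1 ≤ L ^ 7 := one_le_pow₀ (by linarith)
  have hg1 : (1 : ℝ) ≤ g := by linarith
  have hg0 : (0 : ℝ) < g := by linarith
  have h6g : Real.log (6 * g) ≤ 8 * Real.log L := by
    rw [show (8 : ℝ) * Real.log L = Real.log (L ^ 8) by
      rw [Real.log_pow]; norm_num]
    apply Real.log_le_log (by positivity)
    calc (6 : ℝ) * g ≤ 6 * (8 * L ^ 7) := by linarith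
      _ = 48 * L ^ 7 := by ring
      _ ≤ L * L ^ 7 := mul_le_mul_of_nonneg_right (by linarith) hL7.le
      _ = L ^ 8 := by ring
  have hgl : Real.log g ≤ 8 * Real.log L :=
    (Real.log_le_log hg0 (by linarith)).trans h6g
  have h6g1 : 1 ≤ Real.log (6 * g) := by
    rw [Real.le_log_iff_exp_le (by positivity)]
    have := Real.exp_one_lt_d9
    linarith
  set lg := Real.log (6 * g) with hlg
  set lam := 400 / δ * lg with hlam
  have hC : 400 ≤ 400 / δ := by
    rw [le_div_iff₀ hδ]
    linarith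
  have hlam1 : 1 ≤ lam := by
    have := mul_le_mul hC h6g1 (by norm_num) (by positivity)
    linarith
  have hlam0 : 0 < lam := by linarith
  have hlamδ : lam * δ = 400 * lg := by
    rw [hlam]
    field_simp
  set J : ℕ := ⌈L ^ 2⌉₊ with hJ
  set M : ℕ := ⌈L ^ 4⌉₊ with hM
  have hL2 : (1 : ℝ) ≤ L ^ 2 := one_le_pow₀ (by linarith)
  have hL4 : (1 : ℝ) ≤ L ^ 4 := one_le_pow₀ (by linarith)
  have hJ1 : L ^ 2 ≤ J := Nat.le_ceil _
  have hJ2 : (J : ℝ) ≤ 2 * L ^ 2 := by
    have := (Nat.ceil_lt_add_one (show 0 ≤ L ^ 2 by positivity)).le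
    linarith
  have hM1 : L ^ 4 ≤ M := Nat.le_ceil _
  have hM2 : (M : ℝ) ≤ 2 * L ^ 4 := by
    have := (Nat.ceil_lt_add_one (show 0 ≤ L ^ 4 by positivity)).le
    linarith
  have hM0 : (0 : ℝ) < M := by linarith
  have hh00 : 0 < h0 := lt_of_lt_of_le (by positivity) hh0
  set q := 2 * h0 / (M * lam) with hq
  have hq0 : 0 < q := by positivity
  have hqM : q * (M * lam) = 2 * h0 := by
    rw [hq]
    field_simp
  set n : ℕ := ⌈q⌉₊ + 1 with hn
  have hn1 : q ≤ n := by
    rw [hn]
    push_cast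
    have := Nat.le_ceil q
    linarith
  have hn2 : (n : ℝ) ≤ q + 2 := by
    rw [hn]
    push_cast
    have := (Nat.ceil_lt_add_one hq0.le).le
    linarith
  have hn0 : (0 : ℝ) < n := by linarith
  refine ⟨J, M, n, lam, hlam0, ?_, ?_, ?_, ?_, ?_, ?_, ?_, ?_⟩
  · have : (1 : ℝ) ≤ M := by linarith
    exact_mod_cast this
  · have : (M : ℝ) ≤ g := by
      have h3 : 2 * L ^ 4 ≤ L ^ 7 := by
        have h15 : (2 : ℝ) ≤ L ^ 3 := by
          have := pow_le_pow_left₀ (by norm_num) hL2000 3
          linarith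
        calc 2 * L ^ 4 ≤ L ^ 3 * L ^ 4 := mul_le_mul_of_nonneg_right h15 (by positivity)
          _ = L ^ 7 := by ring
      linarith
    exact_mod_cast this
  · have : 0 < ⌈q⌉₊ := Nat.ceil_pos.2 hq0
    omega
  · calc 3 * (g : ℝ) * J ≤ 3 * (8 * L ^ 7) * (2 * L ^ 2) := by gcongr
      _ = 48 * L ^ 9 := by ring
      _ ≤ L ^ 3 * L ^ 9 := by
          have : (48 : ℝ) ≤ L ^ 3 := by
            have := pow_le_pow_left₀ (by norm_num) hL2000 3
            linarith
          gcongr
      _ = L ^ 12 := by ring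
  · have hl2 : (1 : ℝ) / 2 < Real.log 2 := by
      have := Real.log_two_gt_d9
      linarith
    have hl2' : Real.log 2 < 1 := by
      have := Real.log_two_lt_d9
      linarith
    have e1 : 2 * L * Real.log g ≤ 2 * L * (8 * (δ / 51200 * L)) := by
      gcongr
      linarith
    have e2 : 2 * L * lam ≤ L ^ 2 / 8 := by
      have : lam ≤ 400 / δ * (8 * (δ / 51200 * L)) := by
        rw [hlam]
        gcongr
        linarith
      have h4 : 400 / δ * (8 * (δ / 51200 * L)) = L / 16 := by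
        field_simp
        ring
      rw [h4] at this
      calc 2 * L * lam ≤ 2 * L * (L / 16) := mul_le_mul_of_nonneg_left this (by positivity)
        _ = L ^ 2 / 8 := by ring
    have e3 : 2 * L * (8 * (δ / 51200 * L)) ≤ L ^ 2 / 8 := by
      have h5 : δ * L ^ 2 ≤ 1 * L ^ 2 := mul_le_mul_of_nonneg_right hδ1 (by positivity)
      have h6 : 2 * L * (8 * (δ / 51200 * L)) = δ * L ^ 2 / 3200 := by ring
      rw [h6]
      linarith
    have e4 : L ^ 2 / 2 ≤ J * Real.log 2 := by
      calc L ^ 2 / 2 = L ^ 2 * (1 / 2) := by ring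
        _ ≤ J * Real.log 2 := mul_le_mul hJ1 hl2.le (by norm_num) (Nat.cast_nonneg _)
    have e5 : 1 + 2 * L ≤ L ^ 2 / 8 := by
      have h7 : 2000 * L ≤ L * L := mul_le_mul_of_nonneg_right hL2000 hL0.le
      rw [pow_two]
      linarith
    linarith
  · calc 2 * h0 = q * (M * lam) := hqM.symm
      _ ≤ n * (M * lam) := by gcongr
      _ = lam * (M * n) := by ring
  · have hLh : L ^ 8 ≤ h0 := hh0
    -- first term
    have t1 : 20 * ((M : ℝ) * n) * lg ≤ δ / 10 * h0 + 640 * L ^ 5 := by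
      have a1 : (M : ℝ) * n ≤ M * q + 2 * M := by
        calc (M : ℝ) * n ≤ M * (q + 2) := mul_le_mul_of_nonneg_left hn2 hM0.le
          _ = M * q + 2 * M := by ring
      have a2 : (M : ℝ) * q * lam = 2 * h0 := by
        rw [← hqM]
        ring
      have a3 : (M : ℝ) * q * lg = δ / 200 * h0 := by
        have : (M : ℝ) * q * lg * 400 = δ * (2 * h0) := by
          rw [← a2, show (M : ℝ) * q * lg * 400 = M * q * (400 * lg) by ring, ← hlamδ]
          ring
        linarith
      have a4 : lg ≤ 8 * L := by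
        have h8 : δ / 51200 * L ≤ 1 * L :=
          mul_le_mul_of_nonneg_right (by linarith) hL0.le
        linarith
      have hlg0 : 0 ≤ lg := by linarith
      calc 20 * ((M : ℝ) * n) * lg ≤ 20 * (M * q + 2 * M) * lg := by gcongr
        _ = 20 * (M * q * lg) + 40 * (M * lg) := by ring
        _ ≤ 20 * (δ / 200 * h0) + 40 * ((2 * L ^ 4) * (8 * L)) := by
            rw [a3]
            gcongr
        _ = δ / 10 * h0 + 640 * L ^ 5 := by ring
    have t2 : 4 * (n : ℝ) * (J * L) ≤ 16 * (h0 / L) + 16 * L ^ 3 := by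
      have b1 : q ≤ 2 * h0 / L ^ 4 := by
        rw [hq]
        apply div_le_div_of_nonneg_left (by positivity) (by positivity)
        calc L ^ 4 ≤ M := hM1
          _ = M * 1 := (mul_one _).symm
          _ ≤ M * lam := mul_le_mul_of_nonneg_left hlam1 hM0.le
      have hJ0 : (0 : ℝ) ≤ J := Nat.cast_nonneg _
      calc 4 * (n : ℝ) * (J * L) ≤ 4 * (2 * h0 / L ^ 4 + 2) * (2 * L ^ 2 * L) := by
            gcongr
            linarith
        _ = 16 * (h0 / L) + 16 * L ^ 3 := by
            field_simp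
            ring
    have t3 : (M : ℝ) * (4 * J * h0 / g) ≤ 16 * (h0 / L) := by
      have : 4 * (J : ℝ) * h0 / g ≤ 4 * (2 * L ^ 2) * h0 / L ^ 7 := by
        gcongr
      calc (M : ℝ) * (4 * J * h0 / g) ≤ (2 * L ^ 4) * (4 * (2 * L ^ 2) * h0 / L ^ 7) := by
            gcongr
        _ = 16 * (h0 / L) := by
            field_simp
            ring
    have t4 : 640 * L ^ 5 ≤ 640 * (h0 / L) := by
      have : L ^ 5 ≤ h0 / L := by
        rw [le_div_iff₀ hL0]
        calc L ^ 5 * L = L ^ 6 := by ring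
          _ ≤ L ^ 8 := pow_le_pow_right₀ (by linarith) (by norm_num)
          _ ≤ h0 := hLh
      linarith
    have t5 : 16 * L ^ 3 ≤ 16 * (h0 / L) := by
      have : L ^ 3 ≤ h0 / L := by
        rw [le_div_iff₀ hL0]
        calc L ^ 3 * L = L ^ 4 := by ring
          _ ≤ L ^ 8 := pow_le_pow_right₀ (by linarith) (by norm_num)
          _ ≤ h0 := hLh
      linarith
    have t6 : 688 * (h0 / L) < δ * (2 / 5) * h0 := by
      have h9 : h0 / L ≤ δ / 2000 * h0 := by
        rw [div_le_iff₀ hL0]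
        have := mul_le_mul_of_nonneg_right hLδ' hh00.le
        linarith
      have h10 := mul_pos hδ hh00
      linarith
    have h11 := mul_pos hδ hh00
    linarith
  · have : 4 * (J : ℝ) * h0 / g ≤ 4 * (2 * L ^ 2) * h0 / L ^ 7 := by
      gcongr
    refine lt_of_le_of_lt this ?_
    have h5 : 4 * (2 * L ^ 2) * h0 / L ^ 7 = 8 * h0 / L ^ 5 := by
      field_simp
      ring
    rw [h5, div_lt_iff₀ (by positivity)]
    have h6 : L ≤ L ^ 5 := by
      calc L = L ^ 1 := (pow_one L).symm
        _ ≤ L ^ 5 := pow_le_pow_right₀ (by linarith) (by norm_num)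
    have h12 := mul_le_mul_of_nonneg_left h6 (mul_pos hδ hh00).le
    have h13 := mul_le_mul_of_nonneg_right hLδ' hh00.le
    have h14 := mul_pos hδ hh00
    calc 8 * h0 < 1000 * h0 := by linarith
      _ ≤ δ * L * h0 / 2 := by linarith
      _ = δ * h0 * L / 2 := by ring
      _ ≤ δ * h0 * L ^ 5 / 2 := by linarith
      _ = δ / 2 * h0 * L ^ 5 := by ring

end Pool.ALLH
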